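import Pool.Agent.Helper57.SS.Goals

/-! # Project SS, packet WS: deterministic summation by parts -/

set_option autoImplicit false

namespace Pool.Agent.Helper81.SS

open Pool.Agent.Helper57.SS Pool.Agent.Helper49.RS Filter Topology

/-- The exponential with integer frequency. -/
noncomputable def vv (t : ℝ) (n : ℕ) : ℂ := Complex.exp (2 * Real.pi * Complex.I * (t * (n + 1)))

/-- The unimodular factor. -/
noncomputable def uu (s : ℝ) (m : ℕ) : ℂ := Complex.exp (2 * Real.pi * Complex.I * (s * m))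

lemma norm_uu (s : ℝ) (m : ℕ) : ‖uu s m‖ = 1 := by
  unfold uu
  have : (2 * Real.pi * Complex.I * (s * m) : ℂ) = ((2 * Real.pi * (s * m) : ℝ) : ℂ) * Complex.I := by
    push_cast; ring
  rw [this, Complex.norm_exp_ofReal_mul_I]

lemma ex_eq (s t : ℝ) (m n : ℕ) : ex s t m (n + 1) = uu s m * vv t n := by
  unfold ex uu vv
  rw [← Complex.exp_add]
  congr 1
  push_cast
  ring

lemma vv_pow (t : ℝ) (n : ℕ) : vv t n = Complex.exp (2 * Real.pi * Complex.I * t) ^ (n + 1) := by
  unfold vv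
  rw [← Complex.exp_nat_mul]
  congr 1
  push_cast
  ring

lemma exp_ne_one (t : ℝ) (ht : ¬ ∃ m : ℤ, t = m) : Complex.exp (2 * Real.pi * Complex.I * t) ≠ 1 := by
  intro h
  rw [Complex.exp_eq_one_iff] at h
  obtain ⟨n, hn⟩ := h
  apply ht
  refine ⟨n, ?_⟩
  have h1 : (2 * Real.pi * Complex.I : ℂ) ≠ 0 := Complex.two_pi_I_ne_zero
  have h2 : (t : ℂ) = (n : ℂ) := by
    have h3 : (2 * Real.pi * Complex.I : ℂ) * t = (2 * Real.pi * Complex.I : ℂ) * n := by
      rw [hn]; ring
    exact mul_left_cancel₀ h1 h3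
  exact_mod_cast h2

lemma norm_e (t : ℝ) : ‖Complex.exp (2 * Real.pi * Complex.I * t)‖ = 1 := by
  have : (2 * Real.pi * Complex.I * t : ℂ) = ((2 * Real.pi * t : ℝ) : ℂ) * Complex.I := by
    push_cast; ring
  rw [this, Complex.norm_exp_ofReal_mul_I]

lemma E_bd (t : ℝ) (ht : ¬ ∃ m : ℤ, t = m) (n : ℕ) :
    ‖∑ m ∈ Finset.range n, vv t m‖ ≤ 2 / ‖Complex.exp (2 * Real.pi * Complex.I * t) - 1‖ := by
  have hne := exp_ne_one t ht
  have hno := norm_e t
  set w := Complex.exp (2 * Real.pi * Complex.I * t) with hw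
  have h1 : ∑ m ∈ Finset.range n, vv t m = w * ((w ^ n - 1) / (w - 1)) := by
    rw [← geom_sum_eq hne, Finset.mul_sum]
    refine Finset.sum_congr rfl fun m _ => ?_
    rw [vv_pow, ← hw, pow_succ]; ring
  rw [h1, norm_mul, hno, one_mul, norm_div]
  refine div_le_div_of_nonneg_right ?_ (norm_nonneg _)
  calc ‖w ^ n - 1‖ ≤ ‖w ^ n‖ + ‖(1 : ℂ)‖ := norm_sub_le _ _
    _ = 2 := by rw [norm_pow, hno, one_pow, norm_one]; norm_num

lemma prb_anti (b : ℝ) (hb : 0 < b) {m n : ℕ} (h : m ≤ n) : prb b n ≤ prb b m := by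
  unfold prb
  apply Real.rpow_le_rpow_of_nonpos (by positivity) (by exact_mod_cast Nat.succ_le_succ h)
  linarith

lemma prb_tendsto (b : ℝ) (hb : 0 < b) : Tendsto (prb b) atTop (𝓝 0) := by
  have h1 : Tendsto (fun x : ℝ => x ^ (-b)) atTop (𝓝 0) := tendsto_rpow_neg_atTop hb
  have h2 : Tendsto (fun n : ℕ => (n : ℝ) + 1) atTop atTop :=
    tendsto_atTop_add_const_right _ _ tendsto_natCast_atTop_atTop
  exact h1.comp h2

lemma sum_ind (p : ℕ → Prop) [DecidablePred p] (M : ℕ) :
    ∑ n ∈ Finset.range M, ind p n = (Nat.count p M : ℝ) := by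
  induction M with
  | zero => simp
  | succ M ih =>
    rw [Finset.sum_range_succ, ih, Nat.count_succ]
    unfold ind
    split_ifs <;> simp

lemma sum_ind_prb (p : ℕ → Prop) [DecidablePred p] (b : ℝ) (hb : 0 < b) (n0 M : ℕ) :
    ∑ n ∈ Finset.range M, ind p n * prb b n ≤ n0 + prb b n0 * Nat.count p M := by
  have h1 : ∀ n ∈ Finset.range M, ind p n * prb b n ≤
      (if n < n0 then (1 : ℝ) else 0) + prb b n0 * ind p n := by
    intro n _
    have hi0 : 0 ≤ ind p n := by unfold ind; split_ifs <;> norm_num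
    have hi1 : ind p n ≤ 1 := by unfold ind; split_ifs <;> norm_num
    have hp1 := prb_le_one b hb.le n
    have hp0 := prb_nonneg b n
    have hq0 := prb_nonneg b n0
    split_ifs with h
    · have : ind p n * prb b n ≤ 1 * 1 := mul_le_mul hi1 hp1 hp0 (by norm_num)
      have h2 : 0 ≤ prb b n0 * ind p n := mul_nonneg hq0 hi0
      linarith
    · push Not at h
      have := mul_le_mul_of_nonneg_left (prb_anti b hb h) hi0
      linarith
  refine (Finset.sum_le_sum h1).trans ?_
  rw [Finset.sum_add_distrib, ← Finset.mul_sum, sum_ind]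
  have h2 : ∑ n ∈ Finset.range M, (if n < n0 then (1 : ℝ) else 0) ≤ n0 := by
    rw [← Finset.sum_filter, Finset.sum_const, nsmul_eq_mul, mul_one]
    have : ((Finset.range M).filter fun n => n < n0).card ≤ n0 := by
      calc _ ≤ (Finset.range n0).card := by
            refine Finset.card_le_card fun n hn => ?_
            exact Finset.mem_range.2 (Finset.mem_filter.1 hn).2
        _ = n0 := Finset.card_range _
    exact_mod_cast this
  linarith

lemma parts (p : ℕ → Prop) [DecidablePred p] (a : ℕ → ℕ) (b : ℝ) (hb : 0 < b) (s t B : ℝ)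
    (hB : ∀ n, ‖∑ m ∈ Finset.range n, vv t m‖ ≤ B) (M : ℕ) :
    ‖∑ n ∈ Finset.range M, ((prb b n : ℝ) : ℂ) * ex s t (a (Nat.count p n)) (n + 1) -
      ((prb b M : ℝ) : ℂ) * uu s (a (Nat.count p M)) * ∑ m ∈ Finset.range M, vv t m‖ ≤
      B * (prb b 0 - prb b M + 2 * ∑ n ∈ Finset.range M, ind p n * prb b n) := by
  induction M with
  | zero => simp
  | succ M ih =>
    have hB0 : 0 ≤ B := (norm_nonneg _).trans (hB 0)
    rw [Finset.sum_range_succ (fun n => ((prb b n : ℝ) : ℂ) * ex s t (a (Nat.count p n)) (n + 1)),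
      Finset.sum_range_succ (fun n => ind p n * prb b n)]
    have e1 : ∑ n ∈ Finset.range M, ((prb b n : ℝ) : ℂ) * ex s t (a (Nat.count p n)) (n + 1) +
        ((prb b M : ℝ) : ℂ) * ex s t (a (Nat.count p M)) (M + 1) -
        ((prb b (M + 1) : ℝ) : ℂ) * uu s (a (Nat.count p (M + 1))) *
          ∑ m ∈ Finset.range (M + 1), vv t m =
        (∑ n ∈ Finset.range M, ((prb b n : ℝ) : ℂ) * ex s t (a (Nat.count p n)) (n + 1) -
          ((prb b M : ℝ) : ℂ) * uu s (a (Nat.count p M)) * ∑ m ∈ Finset.range M, vv t m) +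
        (((prb b M : ℝ) : ℂ) * uu s (a (Nat.count p M)) -
          ((prb b (M + 1) : ℝ) : ℂ) * uu s (a (Nat.count p (M + 1)))) *
          ∑ m ∈ Finset.range (M + 1), vv t m := by
      rw [ex_eq, Finset.sum_range_succ (fun m => vv t m)]
      ring
    rw [e1]
    have h2 : ‖((prb b M : ℝ) : ℂ) * uu s (a (Nat.count p M)) -
          ((prb b (M + 1) : ℝ) : ℂ) * uu s (a (Nat.count p (M + 1)))‖ ≤
          prb b M - prb b (M + 1) + 2 * (ind p M * prb b M) := by
      have e2 : ((prb b M : ℝ) : ℂ) * uu s (a (Nat.count p M)) -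
          ((prb b (M + 1) : ℝ) : ℂ) * uu s (a (Nat.count p (M + 1))) =
          ((prb b M - prb b (M + 1) : ℝ) : ℂ) * uu s (a (Nat.count p (M + 1))) +
          ((prb b M : ℝ) : ℂ) * (uu s (a (Nat.count p M)) - uu s (a (Nat.count p (M + 1)))) := by
        push_cast; ring
      rw [e2]
      refine (norm_add_le _ _).trans ?_
      rw [norm_mul, norm_mul, norm_uu, Complex.norm_real, Complex.norm_real, mul_one,
        Real.norm_of_nonneg (sub_nonneg.2 (prb_anti b hb (Nat.le_succ M))),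
        Real.norm_of_nonneg (prb_nonneg b M)]
      have h3 : ‖uu s (a (Nat.count p M)) - uu s (a (Nat.count p (M + 1)))‖ ≤ 2 * ind p M := by
        unfold ind
        split_ifs with h
        · calc _ ≤ ‖uu s (a (Nat.count p M))‖ + ‖uu s (a (Nat.count p (M + 1)))‖ :=
                norm_sub_le _ _
            _ = 2 * 1 := by rw [norm_uu, norm_uu]; norm_num
        · rw [Nat.count_succ, if_neg h, add_zero, sub_self, norm_zero]; norm_num
      have := mul_le_mul_of_nonneg_left h3 (prb_nonneg b M)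
      linarith
    refine (norm_add_le _ _).trans ?_
    rw [norm_mul]
    have h4 := mul_le_mul h2 (hB (M + 1)) (norm_nonneg _)
      ((norm_nonneg _).trans h2)
    nlinarith

/-- **WS.** -/
theorem gWS : G_WS := by
  intro p _ a b hb hp s t ht ε hε
  set B : ℝ := 2 / ‖Complex.exp (2 * Real.pi * Complex.I * t) - 1‖ with hBdef
  have hB : ∀ n, ‖∑ m ∈ Finset.range n, vv t m‖ ≤ B := E_bd t ht
  have hB0 : 0 ≤ B := (norm_nonneg _).trans (hB 0)
  -- choice of `n0`
  have hev : ∀ᶠ n : ℕ in atTop, prb b n < ε / (4 * (B + 1)) :=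
    (prb_tendsto b hb).eventually (gt_mem_nhds (by positivity))
  obtain ⟨n0, hn0⟩ := hev.exists
  set K : ℕ := ⌈2 * (B * (1 + 2 * n0)) / ε⌉₊ with hK
  rw [eventually_atTop]
  refine ⟨Nat.nth p K, fun M hM => ?_⟩
  have hc : K ≤ Nat.count p M := by
    have h1 := Nat.count_monotone p hM
    rwa [Nat.count_nth_of_infinite hp] at h1
  have hc' : 2 * (B * (1 + 2 * n0)) ≤ ε * Nat.count p M := by
    have h1 : 2 * (B * (1 + 2 * n0)) / ε ≤ Nat.count p M :=
      (Nat.le_ceil _).trans (Nat.cast_le.2 hc)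
    rw [div_le_iff₀ hε] at h1
    linarith
  have h1 := parts p a b hb s t B hB M
  have h2 := sum_ind_prb p b hb n0 M
  have h3 : ‖((prb b M : ℝ) : ℂ) * uu s (a (Nat.count p M)) * ∑ m ∈ Finset.range M, vv t m‖ ≤
      prb b M * B := by
    rw [norm_mul, norm_mul, norm_uu, mul_one, Complex.norm_real,
      Real.norm_of_nonneg (prb_nonneg b M)]
    exact mul_le_mul_of_nonneg_left (hB M) (prb_nonneg b M)
  have h4 : ‖∑ n ∈ Finset.range M, ((prb b n : ℝ) : ℂ) * ex s t (a (Nat.count p n)) (n + 1)‖ ≤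
      prb b M * B + B * (prb b 0 - prb b M + 2 * ∑ n ∈ Finset.range M, ind p n * prb b n) := by
    have h5 := norm_add_le (∑ n ∈ Finset.range M, ((prb b n : ℝ) : ℂ) *
        ex s t (a (Nat.count p n)) (n + 1) - ((prb b M : ℝ) : ℂ) * uu s (a (Nat.count p M)) *
        ∑ m ∈ Finset.range M, vv t m) (((prb b M : ℝ) : ℂ) * uu s (a (Nat.count p M)) *
        ∑ m ∈ Finset.range M, vv t m)
    rw [sub_add_cancel] at h5
    linarith
  refine h4.trans ?_
  have h0 := prb_le_one b hb.le 0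
  have h6 : B * (2 * (prb b n0 * Nat.count p M)) ≤ ε / 2 * Nat.count p M := by
    have h7 : B * (2 * prb b n0) ≤ ε / 2 := by
      have h8 : prb b n0 * (4 * (B + 1)) ≤ ε := by
        rw [lt_div_iff₀ (by positivity)] at hn0
        exact hn0.le
      have h9 := prb_nonneg b n0
      nlinarith
    have := mul_le_mul_of_nonneg_right h7 (Nat.cast_nonneg (α := ℝ) (Nat.count p M))
    linarith
  have h10 : B * (2 * ∑ n ∈ Finset.range M, ind p n * prb b n) ≤
      B * (2 * (n0 + prb b n0 * Nat.count p M)) :=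
    mul_le_mul_of_nonneg_left (by linarith) hB0
  have h11 : B * prb b 0 ≤ B * 1 := mul_le_mul_of_nonneg_left h0 hB0
  nlinarith

end Pool.Agent.Helper81.SS
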